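import Pool.Agent.helper28.EG.Spec

/-!
# MP_70a088 P2 end game, row RSP: residue of an iterate at a parabolic point
-/

set_option autoImplicit false

open Complex Metric Set Filter Topology MeasureTheory
open WP (it)

noncomputable section

namespace EG

open Polynomial in
/-- Taylor expansion of `(X - p)^(n+2) * R`. -/
theorem RSP_tay (n : ℕ) (R v : Polynomial ℂ) (p : ℂ) : ∃ Q : Polynomial ℂ,
    ((Polynomial.X - Polynomial.C p) ^ (n + 2) * R).comp (Polynomial.X + (Polynomial.X - Polynomial.C p) * v) =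
      (Polynomial.X - Polynomial.C p) ^ (n + 2) * R +
      Polynomial.derivative ((Polynomial.X - Polynomial.C p) ^ (n + 2) * R) * ((Polynomial.X - Polynomial.C p) * v) +
      (Polynomial.X - Polynomial.C p) ^ n * ((Polynomial.X - Polynomial.C p) * v) ^ 2 * Q := by
  set Y : Polynomial ℂ := Polynomial.X - Polynomial.C p with hY
  obtain ⟨W, hW⟩ := Polynomial.binomExpansion (R.map Polynomial.C) (Polynomial.X : Polynomial ℂ) (Y * v)
  have e1 : ∀ (S U : Polynomial ℂ), (S.map Polynomial.C).eval U = S.comp U := by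
    intro S U
    rw [Polynomial.eval_map, Polynomial.comp, Polynomial.eval₂_eq_eval_map]
  rw [e1, e1, Polynomial.comp_X, Polynomial.derivative_map, e1, Polynomial.comp_X] at hW
  obtain ⟨k, hk⟩ := Polynomial.powAddExpansion (1 : Polynomial ℂ) v (n + 2)
  have hYc : Y.comp (Polynomial.X + Y * v) = Y * (1 + v) := by
    rw [hY]
    simp
    ring
  have hdY : Polynomial.derivative (Y ^ (n + 2)) = ((n : Polynomial ℂ) + 2) * Y ^ (n + 1) := by
    have h2 : Polynomial.C (((n + 2 : ℕ)) : ℂ) = (((n + 2 : ℕ)) : Polynomial ℂ) := map_natCast _ _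
    rw [Polynomial.derivative_pow, h2, hY, Polynomial.derivative_sub, Polynomial.derivative_X, Polynomial.derivative_C,
      sub_zero, mul_one]
    push_cast
    rfl
  rw [Polynomial.mul_comp, Polynomial.pow_comp, hYc, mul_pow, hk, hW, Polynomial.derivative_mul, hdY]
  refine ⟨Y ^ 2 * W + ((n : Polynomial ℂ) + 2) * Y * (Polynomial.derivative R + W * (Y * v)) +
    k * (R + Polynomial.derivative R * (Y * v) + W * (Y * v) ^ 2), ?_⟩
  simp only [one_pow, mul_one]
  push_cast
  ring

/-- iterates of polynomials. -/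
theorem RSP_it (f Q : Polynomial ℂ) (k : ℕ) : f.comp^[k] Q = (f.comp^[k] Polynomial.X).comp Q := by
  induction k with
  | zero => simp
  | succ k ih => rw [Function.iterate_succ_apply', ih, Function.iterate_succ_apply', Polynomial.comp_assoc]

theorem RSP_step (f : Polynomial ℂ) (a l : ℕ) :
    Pq f (a * (l + 1)) = Pq f (a * l) + (Pq f a).comp (Polynomial.X + Pq f (a * l)) := by
  have h1 : f.comp^[a * (l + 1)] Polynomial.X = (f.comp^[a] Polynomial.X).comp (f.comp^[a * l] Polynomial.X) := by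
    rw [← RSP_it, ← Function.iterate_add_apply, show a * (l + 1) = a + a * l by ring]
  have h2 : Polynomial.X + Pq f (a * l) = f.comp^[a * l] Polynomial.X := by
    unfold Pq; ring
  rw [h2]
  unfold Pq
  rw [h1, Polynomial.sub_comp, Polynomial.X_comp]
  ring

/-- the iterates modulo a high power. -/
theorem RSP_ind (f : Polynomial ℂ) (a : ℕ) (p : ℂ) (n : ℕ) (R : Polynomial ℂ)
    (h : Pq f a = (Polynomial.X - Polynomial.C p) ^ (n + 2) * R) (l : ℕ) : ∃ E : Polynomial ℂ,
    Pq f (a * l) = Polynomial.C (l : ℂ) * Pq f a +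
      Polynomial.C ((l : ℂ) * (l - 1) / 2) * Polynomial.derivative (Pq f a) * Pq f a +
      (Polynomial.X - Polynomial.C p) ^ (3 * n + 4) * E := by
  induction l with
  | zero =>
    refine ⟨0, ?_⟩
    simp [Pq]
  | succ l ih =>
    obtain ⟨E, hE⟩ := ih
    set Y : Polynomial ℂ := Polynomial.X - Polynomial.C p with hY
    set c : ℂ := (l : ℂ) * (l - 1) / 2 with hc
    have hc1 : ((l + 1 : ℕ) : ℂ) * (((l + 1 : ℕ) : ℂ) - 1) / 2 = c + l := by
      rw [hc]; push_cast; ring
    set R1 : Polynomial ℂ := ((n : Polynomial ℂ) + 2) * R + Y * Polynomial.derivative R with hR1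
    have hdY : Polynomial.derivative (Y ^ (n + 2)) = ((n : Polynomial ℂ) + 2) * Y ^ (n + 1) := by
      have h2 : Polynomial.C (((n + 2 : ℕ)) : ℂ) = (((n + 2 : ℕ)) : Polynomial ℂ) := map_natCast _ _
      rw [Polynomial.derivative_pow, h2, hY, Polynomial.derivative_sub, Polynomial.derivative_X, Polynomial.derivative_C,
        sub_zero, mul_one]
      push_cast
      rfl
    have hd : Polynomial.derivative (Pq f a) = Y ^ (n + 1) * R1 := by
      rw [h, Polynomial.derivative_mul, hdY, hR1]; ring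
    set S : Polynomial ℂ := Polynomial.C (l : ℂ) * R + Polynomial.C c * Polynomial.derivative (Pq f a) * R +
      Y ^ (2 * n + 2) * E with hS
    have hPl : Pq f (a * l) = Y * (Y ^ (n + 1) * S) := by
      rw [hE, hS]
      nth_rewrite 1 [h]
      nth_rewrite 2 [h]
      ring
    obtain ⟨Q, hQ⟩ := RSP_tay n R (Y ^ (n + 1) * S) p
    rw [← hY, ← hPl, ← h] at hQ
    refine ⟨E + Polynomial.derivative (Pq f a) * E + Polynomial.C c * R1 ^ 2 * R + S ^ 2 * Q, ?_⟩
    rw [RSP_step, hQ, hc1]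
    have e1 : Y ^ n * (Pq f (a * l)) ^ 2 * Q = Y ^ (3 * n + 4) * (S ^ 2 * Q) := by
      rw [hPl]; ring
    have e2 : Polynomial.derivative (Pq f a) * Polynomial.derivative (Pq f a) * Pq f a = Y ^ (3 * n + 4) * (R1 ^ 2 * R) := by
      rw [hd, h]; ring
    rw [e1]
    have e3 : Polynomial.C (((l + 1 : ℕ)) : ℂ) = Polynomial.C (l : ℂ) + 1 := by
      push_cast; simp
    rw [e3, Polynomial.C_add]
    calc Pq f (a * l) + (Pq f a + Polynomial.derivative (Pq f a) * Pq f (a * l) + Y ^ (3 * n + 4) * (S ^ 2 * Q))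
        = (Polynomial.C (l : ℂ) * Pq f a + Polynomial.C c * Polynomial.derivative (Pq f a) * Pq f a + Y ^ (3 * n + 4) * E) +
          (Pq f a + Polynomial.derivative (Pq f a) * (Polynomial.C (l : ℂ) * Pq f a +
            Polynomial.C c * Polynomial.derivative (Pq f a) * Pq f a + Y ^ (3 * n + 4) * E) + Y ^ (3 * n + 4) * (S ^ 2 * Q)) := by
          rw [← hE]
      _ = (Polynomial.C (l : ℂ) + 1) * Pq f a + (Polynomial.C c + Polynomial.C (l : ℂ)) * Polynomial.derivative (Pq f a) * Pq f a +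
          (Y ^ (3 * n + 4) * (E + Polynomial.derivative (Pq f a) * E + S ^ 2 * Q) +
            Polynomial.C c * (Polynomial.derivative (Pq f a) * Polynomial.derivative (Pq f a) * Pq f a)) := by ring
      _ = _ := by rw [e2]; ring

/-- adding a holomorphic function. -/
theorem RSP_add {φ ψ K : ℂ → ℂ} {p c : ℂ} {r : ℝ} (hr : 0 < r) (h : IsRes φ p c) (hK : DifferentiableOn ℂ K (ball p r))
    (he : ∀ z ∈ ball p r, z ≠ p → ψ z = φ z + K z) : IsRes ψ p c := by
  obtain ⟨r1, hr1, H, hH, n, b, hb⟩ := h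
  refine ⟨min r r1, lt_min hr hr1, fun z => H z + K z, ?_, n, b, ?_⟩
  · exact (hH.mono (ball_subset_ball (min_le_right _ _))).add (hK.mono (ball_subset_ball (min_le_left _ _)))
  · intro z hz hzp
    rw [he z (ball_subset_ball (min_le_left _ _) hz) hzp, hb z (ball_subset_ball (min_le_right _ _) hz) hzp]
    ring

theorem RSP (hRSU : RSU_stmt) (hRSE : RSE_stmt) (hPQE : PQE_stmt) : RSP_stmt := by
  intro f a l p c₀ hf hPA hl hres
  obtain ⟨ha, hp, hd⟩ := hPA
  obtain ⟨q1, q2, q3, _⟩ := hPQE f a hf ha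
  have hP0 : Pq f a ≠ 0 := by
    intro h
    rw [h] at q1
    simp at q1
  have hroot : (Pq f a).eval p = 0 := by rw [q2, hp, sub_self]
  have hdroot : (Polynomial.derivative (Pq f a)).eval p = 0 := by rw [q3, hd, sub_self]
  have hm : 1 < (Pq f a).rootMultiplicity p := (Polynomial.one_lt_rootMultiplicity_iff_isRoot hP0).2 ⟨hroot, hdroot⟩
  obtain ⟨n, hn⟩ : ∃ n, (Pq f a).rootMultiplicity p = n + 2 := ⟨_, (Nat.sub_add_cancel hm).symm⟩
  obtain ⟨R, hR, hRn⟩ := Polynomial.exists_eq_pow_rootMultiplicity_mul_and_not_dvd (Pq f a) hP0 p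
  rw [hn] at hR
  have hRp : R.eval p ≠ 0 := fun h => hRn (Polynomial.dvd_iff_isRoot.2 h)
  obtain ⟨E, hE⟩ := RSP_ind f a p n R hR l
  set Y : Polynomial ℂ := Polynomial.X - Polynomial.C p with hY
  set c : ℂ := (l : ℂ) * (l - 1) / 2 with hc
  have hl0 : (l : ℂ) ≠ 0 := by
    have : l ≠ 0 := by omega
    exact_mod_cast this
  set R1 : Polynomial ℂ := ((n : Polynomial ℂ) + 2) * R + Y * Polynomial.derivative R with hR1
  have hdY : Polynomial.derivative (Y ^ (n + 2)) = ((n : Polynomial ℂ) + 2) * Y ^ (n + 1) := by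
    have h2 : Polynomial.C (((n + 2 : ℕ)) : ℂ) = (((n + 2 : ℕ)) : Polynomial ℂ) := map_natCast _ _
    rw [Polynomial.derivative_pow, h2, hY, Polynomial.derivative_sub, Polynomial.derivative_X, Polynomial.derivative_C,
      sub_zero, mul_one]
    push_cast
    rfl
  have hder : Polynomial.derivative (Pq f a) = Y ^ (n + 1) * R1 := by
    rw [hR, Polynomial.derivative_mul, hdY, hR1]; ring
  set S : Polynomial ℂ := Polynomial.C (l : ℂ) * R + Polynomial.C c * Polynomial.derivative (Pq f a) * R +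
    Y ^ (2 * n + 2) * E with hS
  have hPl : Pq f (a * l) = Y ^ (n + 2) * S := by
    rw [hE, hS]
    nth_rewrite 1 [hR]
    nth_rewrite 2 [hR]
    ring
  have hYp : Y.eval p = 0 := by rw [hY]; simp
  have hSp : S.eval p = l * R.eval p := by
    rw [hS]
    simp [hdroot, hYp]
  have hSp0 : S.eval p ≠ 0 := by rw [hSp]; exact mul_ne_zero hl0 hRp
  have hS0 : S ≠ 0 := by
    rintro h
    rw [h] at hSp0
    simp at hSp0
  have hmul : (Pq f (a * l)).rootMultiplicity p = n + 2 := by
    rw [hPl, mul_comm, Polynomial.rootMultiplicity_mul_X_sub_C_pow hS0, Polynomial.rootMultiplicity_eq_zero hSp0, zero_add]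
  refine ⟨by rw [hmul, hn], ?_⟩
  -- the numerator
  set N : Polynomial ℂ := - E + Polynomial.C (((l : ℂ) - 1) / 2 * c) * R1 ^ 2 * R +
    Polynomial.C (((l : ℂ) - 1) / 2) * Polynomial.derivative (Pq f a) * E with hN
  have hnum : Polynomial.C (l : ℂ) * Pq f a - Pq f (a * l) +
      Polynomial.C (((l : ℂ) - 1) / 2) * Polynomial.derivative (Pq f a) * Pq f (a * l) = Y ^ (3 * n + 4) * N := by
    have e2 : Polynomial.derivative (Pq f a) * Polynomial.derivative (Pq f a) * Pq f a = Y ^ (3 * n + 4) * (R1 ^ 2 * R) := by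
      rw [hder, hR]; ring
    have e4 : Polynomial.C (((l : ℂ) - 1) / 2) * Polynomial.C (l : ℂ) = Polynomial.C c := by
      rw [← Polynomial.C_mul, hc]; congr 1; ring
    have e5 : Polynomial.C (((l : ℂ) - 1) / 2 * c) = Polynomial.C (((l : ℂ) - 1) / 2) * Polynomial.C c := Polynomial.C_mul
    rw [hE, hN, e5]
    linear_combination (Polynomial.derivative (Pq f a) * Pq f a) * e4 +
      (Polynomial.C (((l : ℂ) - 1) / 2) * Polynomial.C c) * e2
  -- the ball
  obtain ⟨r, hr, hball⟩ : ∃ r > (0 : ℝ), ∀ z ∈ ball p r, R.eval z ≠ 0 ∧ S.eval z ≠ 0 := by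
    have h1 : ∀ᶠ z in 𝓝 p, R.eval z ≠ 0 ∧ S.eval z ≠ 0 :=
      (R.continuous.continuousAt.eventually_ne hRp).and (S.continuous.continuousAt.eventually_ne hSp0)
    exact Metric.eventually_nhds_iff_ball.1 h1
  have hres2 := (hRSU.2.1) (fun z => 1 / (Pq f a).eval z) (fun z => (Polynomial.derivative (Pq f a)).eval z / (Pq f a).eval z)
    p c₀ ((Pq f a).rootMultiplicity p : ℂ) (1 / l) (-((l - 1) / (2 * l))) hres (hRSE (Pq f a) p hP0).2.2
  have e0 : (1 / (l : ℂ)) * c₀ + (-(((l : ℂ) - 1) / (2 * l))) * ((Pq f a).rootMultiplicity p : ℂ) =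
      c₀ / l - (((l : ℂ) - 1) / (2 * l)) * ((Pq f a).rootMultiplicity p : ℂ) := by ring
  rw [e0] at hres2
  refine RSP_add hr hres2 (K := fun z => (z - p) ^ n * N.eval z / (l * R.eval z * S.eval z)) ?_ ?_
  · refine DifferentiableOn.div ?_ ?_ ?_
    · exact (((differentiable_id.sub_const p).pow n).mul N.differentiable).differentiableOn
    · exact ((R.differentiable.const_mul (l : ℂ)).mul S.differentiable).differentiableOn
    · intro z hz
      exact mul_ne_zero (mul_ne_zero hl0 (hball z hz).1) (hball z hz).2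
  · intro z hz hzp
    obtain ⟨hRz, hSz⟩ := hball z hz
    have hyz : z - p ≠ 0 := sub_ne_zero.2 hzp
    have hYz : Y.eval z = z - p := by rw [hY]; simp
    have hPz : (Pq f a).eval z = (z - p) ^ (n + 2) * R.eval z := by rw [hR]; simp [hYz]
    have hPlz : (Pq f (a * l)).eval z = (z - p) ^ (n + 2) * S.eval z := by rw [hPl]; simp [hYz]
    have hPz0 : (Pq f a).eval z ≠ 0 := by rw [hPz]; exact mul_ne_zero (pow_ne_zero _ hyz) hRz
    have hPlz0 : (Pq f (a * l)).eval z ≠ 0 := by rw [hPlz]; exact mul_ne_zero (pow_ne_zero _ hyz) hSz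
    have h3 := congrArg (Polynomial.eval z) hnum
    simp only [Polynomial.eval_add, Polynomial.eval_sub, Polynomial.eval_mul, Polynomial.eval_C, Polynomial.eval_pow, hYz] at h3
    have h4 : (z - p) ^ n * N.eval z / (l * R.eval z * S.eval z) =
        ((z - p) ^ (3 * n + 4) * N.eval z) / (l * (Pq f a).eval z * (Pq f (a * l)).eval z) := by
      rw [hPz, hPlz, div_eq_div_iff (mul_ne_zero (mul_ne_zero hl0 hRz) hSz)
        (mul_ne_zero (mul_ne_zero hl0 (mul_ne_zero (pow_ne_zero _ hyz) hRz)) (mul_ne_zero (pow_ne_zero _ hyz) hSz))]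
      ring
    show 1 / (Pq f (a * l)).eval z = 1 / (l : ℂ) * (1 / (Pq f a).eval z) +
      -((l - 1) / (2 * l)) * ((Polynomial.derivative (Pq f a)).eval z / (Pq f a).eval z) +
      (z - p) ^ n * N.eval z / (l * R.eval z * S.eval z)
    rw [h4, ← h3]
    field_simp
    ring

end EG
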